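import Mathlib

/-!
# A gap-free graph whose ideal of connected triples has no linear quotients

The complement of the icosahedron graph is gap-free (the icosahedron graph has no induced
4-cycle), and the ideal of its connected 3-subsets does not have linear quotients over any field.
-/

namespace Pool.Agent.Results.MP_c1f45e_al.CoIcosahedron

open MvPolynomial

universe u

/-- `G` is gap-free: for any two disjoint edges `ab` and `cd` of `G`, some endpoint of the first
is adjacent to some endpoint of the second. -/
def GapFree {V : Type} (G : SimpleGraph V) : Prop :=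
  ∀ a b c d : V, G.Adj a b → G.Adj c d → a ≠ c → a ≠ d → b ≠ c → b ≠ d →
    G.Adj a c ∨ G.Adj a d ∨ G.Adj b c ∨ G.Adj b d

/-- The `t`-connected ideal of `G`: the ideal of `K[x_v : v ∈ V]` generated by the products
`x_S = ∏_{v ∈ S} x_v` over all vertex sets `S` with `|S| = t` and `G[S]` connected. -/
noncomputable def connIdeal (K : Type u) [Field K] {V : Type} (G : SimpleGraph V) (t : ℕ) :
    Ideal (MvPolynomial V K) :=
  Ideal.span {p | ∃ S : Finset V, S.card = t ∧ (G.induce (S : Set V)).Connected ∧
    p = ∏ v ∈ S, X v}

/-- `x^a` is a minimal monomial generator of the monomial ideal `I`: it lies in `I`, and no other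
monomial dividing it lies in `I`. -/
def IsMinGen {K : Type u} [Field K] {V : Type} (I : Ideal (MvPolynomial V K))
    (a : V →₀ ℕ) : Prop :=
  monomial a (1 : K) ∈ I ∧ ∀ b ≤ a, monomial b (1 : K) ∈ I → b = a

/-- The monomial ideal `I` has linear quotients: its minimal monomial generators can be ordered
`x^(m 0), ..., x^(m (r-1))` so that for each `i` with `0 < i` the colon ideal
`(x^(m 0), ..., x^(m (i-1))) : x^(m i)` is generated by a set of variables. -/
def HasLinearQuotients {K : Type u} [Field K] {V : Type} (I : Ideal (MvPolynomial V K)) : Prop :=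
  ∃ (r : ℕ) (m : Fin r → (V →₀ ℕ)), Function.Injective m ∧
    Set.range m = {a | IsMinGen I a} ∧
    ∀ i : Fin r, 0 < i.val → ∃ W : Set V,
      (Ideal.span {p | ∃ j : Fin r, j < i ∧ p = monomial (m j) (1 : K)}).colon
        {monomial (m i) (1 : K)} = Ideal.span (X '' W)

/-- The neighbourhoods in the icosahedron graph: `0` is joined to the pentagon `1,2,3,4,5`, `11`
is joined to the pentagon `6,7,8,9,10`, and vertex `1 + i` of the first pentagon is joined to the
vertices `6 + i` and `6 + (i + 1 mod 5)` of the second. -/
def icoNbr : Fin 12 → List (Fin 12) :=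
  ![[1, 2, 3, 4, 5],
    [0, 2, 5, 6, 7], [0, 1, 3, 7, 8], [0, 2, 4, 8, 9], [0, 3, 5, 9, 10], [0, 1, 4, 6, 10],
    [1, 5, 7, 10, 11], [1, 2, 6, 8, 11], [2, 3, 7, 9, 11], [3, 4, 8, 10, 11], [4, 5, 6, 9, 11],
    [6, 7, 8, 9, 10]]

/-- The complement of the icosahedron graph. -/
def coIco : SimpleGraph (Fin 12) where
  Adj a b := a ≠ b ∧ b ∉ icoNbr a
  symm := ⟨by decide⟩
  loopless := ⟨by decide⟩

instance : DecidableRel coIco.Adj := fun a b => by unfold coIco; infer_instance

/-! ### The combinatorial content of linear quotients -/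

/-- exponent vector of `x_S` -/
noncomputable def ev {V : Type} (S : Finset V) : V →₀ ℕ := ∑ v ∈ S, Finsupp.single v 1

theorem ev_apply {V : Type} [DecidableEq V] (S : Finset V) (w : V) :
    ev S w = if w ∈ S then 1 else 0 := by
  unfold ev
  rw [Finsupp.finsetSum_apply]
  simp [Finsupp.single_apply]

theorem ev_le {V : Type} [DecidableEq V] (S : Finset V) (a : V →₀ ℕ) :
    ev S ≤ a ↔ ∀ v ∈ S, 1 ≤ a v := by
  constructor
  · intro h v hv
    have := h v
    rw [ev_apply, if_pos hv] at this
    exact this
  · intro h v
    rw [ev_apply]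
    split_ifs with hv
    · exact h v hv
    · exact Nat.zero_le _

theorem mono_ev {K : Type u} [Field K] {V : Type} (S : Finset V) :
    monomial (ev S) (1 : K) = ∏ v ∈ S, X v := by
  unfold ev
  rw [monomial_sum_one]
  rfl

theorem mono_mem {K : Type u} [Field K] {V : Type} (s : Set (V →₀ ℕ)) (a : V →₀ ℕ) :
    monomial a (1 : K) ∈ Ideal.span ((fun s => monomial s (1 : K)) '' s) ↔ ∃ b ∈ s, b ≤ a := by
  classical
  rw [mem_ideal_span_monomial_image]
  rw [support_monomial, if_neg one_ne_zero]
  simp

/-- connected sets of size `t` -/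
def CS {V : Type} (G : SimpleGraph V) (t : ℕ) : Set (Finset V) :=
  {S | S.card = t ∧ (G.induce (S : Set V)).Connected}

theorem connIdeal_eq {K : Type u} [Field K] {V : Type} (G : SimpleGraph V) (t : ℕ) :
    connIdeal K G t = Ideal.span ((fun s => monomial s (1 : K)) '' (ev '' CS G t)) := by
  unfold connIdeal
  congr 1
  ext p
  constructor
  · rintro ⟨S, h1, h2, rfl⟩
    exact ⟨ev S, ⟨S, ⟨h1, h2⟩, rfl⟩, mono_ev S⟩
  · rintro ⟨_, ⟨S, ⟨h1, h2⟩, rfl⟩, rfl⟩
    exact ⟨S, h1, h2, mono_ev S⟩

theorem mem_conn {K : Type u} [Field K] {V : Type} (G : SimpleGraph V) (t : ℕ) (a : V →₀ ℕ) :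
    monomial a (1 : K) ∈ connIdeal K G t ↔ ∃ S ∈ CS G t, ev S ≤ a := by
  rw [connIdeal_eq, mono_mem]
  constructor
  · rintro ⟨_, ⟨S, hS, rfl⟩, h⟩
    exact ⟨S, hS, h⟩
  · rintro ⟨S, hS, h⟩
    exact ⟨ev S, ⟨S, hS, rfl⟩, h⟩

theorem minGen_iff {K : Type u} [Field K] {V : Type} [DecidableEq V] (G : SimpleGraph V) (t : ℕ)
    (a : V →₀ ℕ) : IsMinGen (connIdeal K G t) a ↔ ∃ S ∈ CS G t, ev S = a := by
  unfold IsMinGen
  rw [mem_conn]
  constructor
  · rintro ⟨⟨S, hS, h⟩, h2⟩
    exact ⟨S, hS, h2 _ h ((mem_conn G t _).2 ⟨S, hS, le_rfl⟩)⟩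
  · rintro ⟨S, hS, rfl⟩
    refine ⟨⟨S, hS, le_rfl⟩, ?_⟩
    intro b hb hb2
    obtain ⟨T, hT, hTb⟩ := (mem_conn G t b).1 hb2
    have hTS : T ⊆ S := by
      intro v hv
      have := (ev_le T _).1 (hTb.trans hb) v hv
      rw [ev_apply] at this
      by_contra hvS
      rw [if_neg hvS] at this
      omega
    have : T = S := Finset.eq_of_subset_of_card_le hTS (by rw [hS.1, hT.1])
    subst this
    exact le_antisymm hb hTb

/-- The combinatorial consequence of linear quotients that is used. -/
theorem comb {K : Type u} [Field K] {V : Type} [DecidableEq V] (G : SimpleGraph V) (t : ℕ)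
    (h : HasLinearQuotients (connIdeal K G t)) :
    ∃ (r : ℕ) (S : Fin r → Finset V), (∀ i, S i ∈ CS G t) ∧ (∀ T ∈ CS G t, ∃ i, S i = T) ∧
      ∀ i : Fin r, ∀ b b' : V,
        (∀ j < i, ¬ S j ⊆ insert b (S i)) → (∀ j < i, ¬ S j ⊆ insert b' (S i)) →
          ∀ j < i, ¬ S j ⊆ insert b (insert b' (S i)) := by
  classical
  obtain ⟨r, m, hinj, hrange, hcol⟩ := h
  have h1 : ∀ i, ∃ S ∈ CS G t, ev S = m i := by
    intro i
    rw [← minGen_iff (K := K)]
    have : m i ∈ Set.range m := ⟨i, rfl⟩
    rw [hrange] at this
    exact this
  choose S hS hSm using h1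
  have evinj : ∀ A B : Finset V, ev A = ev B → A = B := by
    intro A B hAB
    ext w
    have := congrArg (fun f => f w) hAB
    simp only [ev_apply] at this
    by_cases hA : w ∈ A <;> by_cases hB : w ∈ B <;> simp_all
  refine ⟨r, S, hS, ?_, ?_⟩
  · intro T hT
    have : ev T ∈ {a | IsMinGen (connIdeal K G t) a} := (minGen_iff G t _).2 ⟨T, hT, rfl⟩
    rw [← hrange] at this
    obtain ⟨i, hi⟩ := this
    exact ⟨i, evinj _ _ ((hSm i).trans hi)⟩
  · intro i b b' hb hb' j hj hsub
    have hi : 0 < i.val := lt_of_le_of_lt (Nat.zero_le j.val) hj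
    obtain ⟨W, hW⟩ := hcol i hi
    have hspan : {p | ∃ j : Fin r, j < i ∧ p = monomial (m j) (1 : K)} =
        (fun s => monomial s (1 : K)) '' (m '' {j | j < i}) := by
      ext p
      constructor
      · rintro ⟨j, hj, rfl⟩
        exact ⟨m j, ⟨j, hj, rfl⟩, rfl⟩
      · rintro ⟨_, ⟨j, hj, rfl⟩, rfl⟩
        exact ⟨j, hj, rfl⟩
    rw [hspan] at hW
    have key : ∀ a : V →₀ ℕ, monomial a (1 : K) ∈ Ideal.span (X '' W : Set (MvPolynomial V K)) ↔
        ∃ j < i, m j ≤ a + m i := by
      intro a
      rw [← hW, Submodule.mem_colon_singleton, smul_eq_mul, monomial_mul, one_mul, mono_mem]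
      constructor
      · rintro ⟨_, ⟨j, hj, rfl⟩, h⟩
        exact ⟨j, hj, h⟩
      · rintro ⟨j, hj, h⟩
        exact ⟨m j, ⟨j, hj, rfl⟩, h⟩
    have notW : ∀ b : V, (∀ j < i, ¬ S j ⊆ insert b (S i)) → b ∉ W := by
      intro b hb hbW
      have h2 : monomial (Finsupp.single b 1) (1 : K) ∈
          Ideal.span (X '' W : Set (MvPolynomial V K)) := Ideal.subset_span ⟨b, hbW, rfl⟩
      obtain ⟨j, hj, hle⟩ := (key _).1 h2
      apply hb j hj
      intro w hw
      rw [← hSm j, ev_le] at hle
      have := hle w hw
      rw [Finsupp.add_apply, ← hSm i, ev_apply, Finsupp.single_apply] at this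
      rw [Finset.mem_insert]
      by_contra hcon
      push Not at hcon
      rw [if_neg (fun h => hcon.1 h.symm), if_neg hcon.2] at this
      omega
    have hbW := notW b hb
    have hbW' := notW b' hb'
    have h3 : monomial (Finsupp.single b 1 + Finsupp.single b' 1) (1 : K) ∈
        Ideal.span (X '' W : Set (MvPolynomial V K)) := by
      rw [key]
      refine ⟨j, hj, ?_⟩
      rw [← hSm j, ev_le]
      intro w hw
      have := hsub hw
      rw [Finset.mem_insert, Finset.mem_insert] at this
      rw [Finsupp.add_apply, Finsupp.add_apply, ← hSm i, ev_apply, Finsupp.single_apply,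
        Finsupp.single_apply]
      rcases this with h | h | h
      · rw [if_pos h.symm]; omega
      · rw [if_pos h.symm]; omega
      · rw [if_pos h]; omega
    rw [mem_ideal_span_X_image] at h3
    obtain ⟨w, hw, hne⟩ := h3 (Finsupp.single b 1 + Finsupp.single b' 1) (by
      rw [support_monomial, if_neg one_ne_zero]; simp)
    rw [Finsupp.add_apply, Finsupp.single_apply, Finsupp.single_apply] at hne
    by_cases h4 : b = w
    · exact hbW (h4 ▸ hw)
    · by_cases h5 : b' = w
      · exact hbW' (h5 ▸ hw)
      · rw [if_neg h4, if_neg h5] at hne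
        exact hne rfl

/-! ### Chains of 4-subsets -/

/-- If every generator avoids a cycle `z` of 3-subsets which bounds, then `z` bounds a chain of
4-subsets that contain no generator. -/
theorem chain {V : Type} [DecidableEq V] [Fintype V] (z : Finset V → ZMod 2)
    (r : ℕ) (S : Fin r → Finset V) (h3 : ∀ i, (S i).card = 3) (hz : ∀ i, z (S i) = 0)
    (hlq : ∀ i : Fin r, ∀ b b' : V,
        (∀ j < i, ¬ S j ⊆ insert b (S i)) → (∀ j < i, ¬ S j ⊆ insert b' (S i)) →
          ∀ j < i, ¬ S j ⊆ insert b (insert b' (S i)))
    (h0 : ∃ c : Finset V → ZMod 2, (∀ A, c A ≠ 0 → A.card = 4) ∧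
      ∀ T : Finset V, T.card = 3 → ∑ v ∈ Tᶜ, c (insert v T) = z T) :
    ∃ c : Finset V → ZMod 2, (∀ A, c A ≠ 0 → A.card = 4 ∧ ∀ j, ¬ S j ⊆ A) ∧
      ∀ T : Finset V, T.card = 3 → ∑ v ∈ Tᶜ, c (insert v T) = z T := by
  have main : ∀ n : ℕ, n ≤ r → ∃ c : Finset V → ZMod 2,
      (∀ A, c A ≠ 0 → A.card = 4 ∧ ∀ j : Fin r, j.val < n → ¬ S j ⊆ A) ∧
      ∀ T : Finset V, T.card = 3 → ∑ v ∈ Tᶜ, c (insert v T) = z T := by
    intro n
    induction n with
    | zero =>
      intro _
      obtain ⟨c, hc1, hc2⟩ := h0
      exact ⟨c, fun A hA => ⟨hc1 A hA, fun j hj => absurd hj (Nat.not_lt_zero _)⟩, hc2⟩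
    | succ n ih =>
      intro hn
      obtain ⟨c, hc1, hc2⟩ := ih (by omega)
      let i : Fin r := ⟨n, by omega⟩
      by_cases hU : ∀ b, b ∉ S i → c (insert b (S i)) = 0
      · refine ⟨c, ?_, hc2⟩
        intro A hA
        refine ⟨(hc1 A hA).1, ?_⟩
        intro j hj hsub
        rcases Nat.lt_succ_iff_lt_or_eq.1 hj with h | h
        · exact (hc1 A hA).2 j h hsub
        · have hji : j = i := Fin.ext h
          rw [hji] at hsub
          have hcard := (hc1 A hA).1
          have h5 := h3 i
          have h6 : (A \ S i).card = 1 := by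
            rw [Finset.card_sdiff_of_subset hsub]; omega
          obtain ⟨a, ha⟩ := Finset.card_eq_one.1 h6
          have ha2 : a ∈ A \ S i := by rw [ha]; simp
          rw [Finset.mem_sdiff] at ha2
          have h7 : insert a (S i) = A := by
            apply Finset.eq_of_subset_of_card_le
            · intro x hx
              rcases Finset.mem_insert.1 hx with h | h
              · rw [h]; exact ha2.1
              · exact hsub h
            · rw [Finset.card_insert_of_notMem ha2.2]; omega
          apply hA
          rw [← h7]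
          exact hU a ha2.2
      · push Not at hU
        obtain ⟨b0, hb0, hcb0⟩ := hU
        -- the set of `b` with `c (insert b (S i)) ≠ 0`
        let U : Finset V := (S i)ᶜ.filter (fun b => c (insert b (S i)) ≠ 0)
        have hb0U : b0 ∈ U := by
          simp only [U, Finset.mem_filter, Finset.mem_compl]
          exact ⟨hb0, hcb0⟩
        have zm : ∀ x : ZMod 2, x ≠ 0 → x = 1 := by decide
        have hUcard : ((U.card : ℕ) : ZMod 2) = 0 := by
          have h7 := hc2 (S i) (h3 i)
          rw [hz i] at h7
          rw [← h7]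
          rw [Finset.card_eq_sum_ones, Nat.cast_sum, Finset.sum_filter]
          apply Finset.sum_congr rfl
          intro b _
          by_cases hb : c (insert b (S i)) = 0
          · simp [hb]
          · simp [zm _ hb]
        let Q : V → Finset V := fun b => insert b0 (insert b (S i))
        let d : Finset V → ZMod 2 := fun A =>
          ∑ b ∈ U.erase b0, (if A ⊆ Q b ∧ A.card = 4 then (1 : ZMod 2) else 0)
        have hQcard : ∀ b ∈ U.erase b0, (Q b).card = 5 := by
          intro b hb
          rw [Finset.mem_erase] at hb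
          have hbU := hb.2
          simp only [U, Finset.mem_filter, Finset.mem_compl] at hbU
          simp only [Q]
          rw [Finset.card_insert_of_notMem, Finset.card_insert_of_notMem hbU.1, h3 i]
          rw [Finset.mem_insert]
          push Not
          exact ⟨hb.1.symm, hb0⟩
        refine ⟨fun A => c A + d A, ?_, ?_⟩
        · intro A hA
          have hcard : A.card = 4 := by
            by_contra hcon
            apply hA
            have h8 : c A = 0 := by
              by_contra h9
              exact hcon (hc1 A h9).1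
            have h9 : d A = 0 := by
              apply Finset.sum_eq_zero
              intro b _
              rw [if_neg (fun h => hcon h.2)]
            show c A + d A = 0
            rw [h8, h9, add_zero]
          refine ⟨hcard, ?_⟩
          intro j hj hsub
          rcases Nat.lt_succ_iff_lt_or_eq.1 hj with h | h
          · by_cases hcA : c A = 0
            · have hdA : d A ≠ 0 := by
                intro h9
                apply hA
                show c A + d A = 0
                rw [hcA, h9, add_zero]
              obtain ⟨b, hb, hb2⟩ := Finset.exists_ne_zero_of_sum_ne_zero hdA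
              have hAQ : A ⊆ Q b := by
                by_contra h9
                apply hb2
                rw [if_neg (fun h => h9 h.1)]
              have hbU := (Finset.mem_erase.1 hb).2
              simp only [U, Finset.mem_filter, Finset.mem_compl] at hbU
              exact hlq i b0 b (fun k hk => (hc1 _ hcb0).2 k hk) (fun k hk => (hc1 _ hbU.2).2 k hk)
                j h (hsub.trans hAQ)
            · exact (hc1 A hcA).2 j h hsub
          · have hji : j = i := Fin.ext h
            rw [hji] at hsub
            have h5 := h3 i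
            have h6 : (A \ S i).card = 1 := by
              rw [Finset.card_sdiff_of_subset hsub]; omega
            obtain ⟨a, ha⟩ := Finset.card_eq_one.1 h6
            have ha2 : a ∈ A \ S i := by rw [ha]; simp
            rw [Finset.mem_sdiff] at ha2
            have h7 : insert a (S i) = A := by
              apply Finset.eq_of_subset_of_card_le
              · intro x hx
                rcases Finset.mem_insert.1 hx with h | h
                · rw [h]; exact ha2.1
                · exact hsub h
              · rw [Finset.card_insert_of_notMem ha2.2]; omega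
            have hdval : d A = ∑ b ∈ U.erase b0, (if a = b0 ∨ a = b then (1 : ZMod 2) else 0) := by
              apply Finset.sum_congr rfl
              intro b hb
              have hbU := (Finset.mem_erase.1 hb).2
              simp only [U, Finset.mem_filter, Finset.mem_compl] at hbU
              have : (A ⊆ Q b ∧ A.card = 4) ↔ (a = b0 ∨ a = b) := by
                constructor
                · rintro ⟨h8, _⟩
                  have := h8 ha2.1
                  simp only [Q, Finset.mem_insert] at this
                  rcases this with h | h | h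
                  · exact Or.inl h
                  · exact Or.inr h
                  · exact absurd h ha2.2
                · intro h8
                  refine ⟨?_, hcard⟩
                  rw [← h7]
                  intro x hx
                  simp only [Q, Finset.mem_insert] at hx ⊢
                  rcases hx with hx | hx
                  · rw [hx]
                    rcases h8 with h8 | h8
                    · exact Or.inl h8
                    · exact Or.inr (Or.inl h8)
                  · exact Or.inr (Or.inr hx)
              simp only [this]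
            apply hA
            show c A + d A = 0
            rw [hdval]
            by_cases hab : a = b0
            · have hsum : (∑ b ∈ U.erase b0, (if a = b0 ∨ a = b then (1 : ZMod 2) else 0)) =
                  (((U.erase b0).card : ℕ) : ZMod 2) := by
                rw [Finset.card_eq_sum_ones, Nat.cast_sum]
                apply Finset.sum_congr rfl
                intro b _
                rw [if_pos (Or.inl hab)]
                simp
              rw [hsum]
              have hcA : c A = 1 := by
                apply zm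
                rw [← h7, hab]
                exact hcb0
              rw [hcA, ← hUcard, ← Finset.card_erase_add_one hb0U]
              push_cast
              ring
            · by_cases haU : a ∈ U
              · have hsum : (∑ b ∈ U.erase b0, (if a = b0 ∨ a = b then (1 : ZMod 2) else 0)) =
                    1 := by
                  rw [Finset.sum_eq_single a]
                  · rw [if_pos (Or.inr rfl)]
                  · intro b _ hba
                    rw [if_neg]
                    rintro (h | h)
                    · exact hab h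
                    · exact hba h.symm
                  · intro h
                    exact absurd (Finset.mem_erase.2 ⟨hab, haU⟩) h
                rw [hsum]
                have hcA : c A = 1 := by
                  apply zm
                  rw [← h7]
                  simp only [U, Finset.mem_filter, Finset.mem_compl] at haU
                  exact haU.2
                rw [hcA]
                decide
              · have hsum : (∑ b ∈ U.erase b0, (if a = b0 ∨ a = b then (1 : ZMod 2) else 0)) =
                    0 := by
                  apply Finset.sum_eq_zero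
                  intro b hb
                  rw [if_neg]
                  rintro (h | h)
                  · exact hab h
                  · rw [← h] at hb
                    exact haU (Finset.mem_erase.1 hb).2
                rw [hsum, add_zero]
                simp only [U, Finset.mem_filter, Finset.mem_compl] at haU
                by_contra hne
                apply haU
                refine ⟨ha2.2, ?_⟩
                rw [h7]
                exact hne
        · intro T hT
          rw [← hc2 T hT]
          simp only [Finset.sum_add_distrib]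
          have hzero : ∑ v ∈ Tᶜ, d (insert v T) = 0 := by
            simp only [d]
            rw [Finset.sum_comm]
            apply Finset.sum_eq_zero
            intro b hb
            have hQ5 := hQcard b hb
            by_cases hTQ : T ⊆ Q b
            · have h8 : ∀ v ∈ Tᶜ, ((insert v T) ⊆ Q b ∧ (insert v T).card = 4) ↔ v ∈ Q b \ T := by
                intro v hv
                rw [Finset.mem_compl] at hv
                rw [Finset.mem_sdiff, Finset.insert_subset_iff,
                  Finset.card_insert_of_notMem hv, hT]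
                tauto
              rw [Finset.sum_congr rfl (fun v hv => by rw [if_congr (h8 v hv) rfl rfl])]
              rw [← Finset.sum_filter]
              have h9 : Tᶜ.filter (fun v => v ∈ Q b \ T) = Q b \ T := by
                ext v
                simp only [Finset.mem_filter, Finset.mem_compl, Finset.mem_sdiff]
                tauto
              rw [h9, Finset.sum_const, Finset.card_sdiff_of_subset hTQ, hQ5, hT]
              decide
            · apply Finset.sum_eq_zero
              intro v _
              rw [if_neg]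
              rintro ⟨h8, _⟩
              exact hTQ ((Finset.subset_insert v T).trans h8)
          rw [hzero, add_zero]
  obtain ⟨c, hc1, hc2⟩ := main r le_rfl
  exact ⟨c, fun A hA => ⟨(hc1 A hA).1, fun j => (hc1 A hA).2 j j.isLt⟩, hc2⟩

/-! ### The complement of the icosahedron -/

theorem gapFree_coIco : GapFree coIco := by
  unfold GapFree
  decide +kernel

theorem path3 (x y w : Fin 12) (h1 : coIco.Adj x y) (h2 : coIco.Adj y w) (h3 : x ≠ w) :
    ({x, y, w} : Finset (Fin 12)) ∈ CS coIco 3 := by
  refine ⟨?_, ?_⟩
  · rw [Finset.card_eq_three]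
    exact ⟨x, y, w, h1.ne, h3, h2.ne, rfl⟩
  · have h4 := SimpleGraph.induce_union_connected (G := coIco)
      (SimpleGraph.induce_pair_connected_of_adj h1).preconnected
      (SimpleGraph.induce_pair_connected_of_adj h2).preconnected
      ⟨y, by simp, by simp⟩
    have h5 : (({x, y, w} : Finset (Fin 12)) : Set (Fin 12)) = {x, y} ∪ {y, w} := by
      ext v
      simp only [Finset.coe_insert, Finset.coe_singleton, Set.mem_insert_iff,
        Set.mem_singleton_iff, Set.mem_union]
      tauto
    rw [h5]
    exact h4

/-- the triangles of the icosahedron -/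
def zz (T : Finset (Fin 12)) : ZMod 2 :=
  if T.card = 3 ∧ ∀ a ∈ T, ∀ b ∈ T, a ≠ b → b ∈ icoNbr a then 1 else 0

theorem zz_conn (T : Finset (Fin 12)) (hT : T ∈ CS coIco 3) : zz T = 0 := by
  unfold zz
  rw [if_neg]
  rintro ⟨h1, h2⟩
  have h3 : coIco.induce (T : Set (Fin 12)) = ⊥ := by
    ext ⟨a, ha⟩ ⟨b, hb⟩
    simp only [SimpleGraph.comap_adj, Function.Embedding.subtype_apply, SimpleGraph.bot_adj,
      iff_false]
    intro hab
    exact hab.2 (h2 a ha b hb hab.1)
  have h4 := hT.2
  rw [h3, SimpleGraph.connected_bot_iff] at h4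
  obtain ⟨x, y, w, hxy, hxw, hyw, rfl⟩ := Finset.card_eq_three.1 h1
  have h5 := h4.1.allEq ⟨x, by simp⟩ ⟨y, by simp⟩
  exact hxy (congrArg Subtype.val h5)

/-- the triangles of the icosahedron, on ordered triples -/
def tri (a b c : Fin 12) : Bool :=
  decide (a ∈ icoNbr b) && (decide (b ∈ icoNbr c) && decide (c ∈ icoNbr a))

theorem icoNbr_symm : ∀ a b : Fin 12, a ∈ icoNbr b → b ∈ icoNbr a := by decide

theorem icoNbr_ne : ∀ a b : Fin 12, a ∈ icoNbr b → a ≠ b := by decide

theorem zz_triple (a b c : Fin 12) (hab : a ≠ b) (hac : a ≠ c) (hbc : b ≠ c) :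
    zz {a, b, c} = if tri a b c then 1 else 0 := by
  unfold zz
  have h1 : ({a, b, c} : Finset (Fin 12)).card = 3 :=
    Finset.card_eq_three.2 ⟨a, b, c, hab, hac, hbc, rfl⟩
  by_cases h : tri a b c = true
  · rw [if_pos h, if_pos]
    refine ⟨h1, ?_⟩
    simp only [tri, Bool.and_eq_true, decide_eq_true_eq] at h
    obtain ⟨h2, h3, h4⟩ := h
    have h2' := icoNbr_symm _ _ h2
    have h3' := icoNbr_symm _ _ h3
    have h4' := icoNbr_symm _ _ h4
    intro x hx y hy hxy
    simp only [Finset.mem_insert, Finset.mem_singleton] at hx hy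
    rcases hx with rfl | rfl | rfl <;> rcases hy with rfl | rfl | rfl <;>
      first
        | exact absurd rfl hxy
        | assumption
  · rw [if_neg h, if_neg]
    rintro ⟨_, h2⟩
    apply h
    simp only [tri, Bool.and_eq_true, decide_eq_true_eq]
    exact ⟨h2 b (by simp) a (by simp) hab.symm, h2 c (by simp) b (by simp) hbc.symm,
      h2 a (by simp) c (by simp) hac⟩

theorem tri_cycle : ∀ a b : Fin 12, a ≠ b →
    ∑ v : Fin 12, (if tri v a b then (1 : ZMod 2) else 0) = 0 := by
  decide +kernel

/-- the cone from `0` over the triangles -/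
def cone (A : Finset (Fin 12)) : ZMod 2 :=
  if A.card = 4 ∧ 0 ∈ A then zz (A.erase 0) else 0

theorem cone_bd (T : Finset (Fin 12)) (hT : T.card = 3) :
    ∑ v ∈ Tᶜ, cone (insert v T) = zz T := by
  by_cases h0 : (0 : Fin 12) ∈ T
  · have h1 : (T.erase 0).card = 2 := by rw [Finset.card_erase_of_mem h0, hT]
    obtain ⟨a, b, hab, hTab⟩ := Finset.card_eq_two.1 h1
    have ha : a ∈ T.erase 0 := by rw [hTab]; simp
    have hb : b ∈ T.erase 0 := by rw [hTab]; simp
    have ha0 : a ≠ 0 := (Finset.mem_erase.1 ha).1
    have hb0 : b ≠ 0 := (Finset.mem_erase.1 hb).1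
    have hT0 : T = {0, a, b} := by rw [← Finset.insert_erase h0, hTab]
    have h2 : ∀ v ∈ Tᶜ, cone (insert v T) = if tri v a b then 1 else 0 := by
      intro v hv
      rw [Finset.mem_compl, hT0] at hv
      simp only [Finset.mem_insert, Finset.mem_singleton, not_or] at hv
      unfold cone
      have h3 : v ∉ T := by
        rw [hT0]
        simp only [Finset.mem_insert, Finset.mem_singleton, not_or]
        exact hv
      rw [if_pos ⟨by rw [Finset.card_insert_of_notMem h3, hT], Finset.mem_insert_of_mem h0⟩]
      have h4 : (insert v T).erase 0 = {v, a, b} := by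
        rw [Finset.erase_insert_of_ne hv.1, hTab]
      rw [h4, zz_triple v a b hv.2.1 hv.2.2 hab]
    rw [Finset.sum_congr rfl h2]
    have h5 := tri_cycle a b hab
    rw [← Finset.sum_add_sum_compl T] at h5
    have h6 : ∑ v ∈ T, (if tri v a b then (1 : ZMod 2) else 0) = zz T := by
      rw [hT0, zz_triple 0 a b ha0.symm hb0.symm hab]
      rw [Finset.sum_insert, Finset.sum_insert, Finset.sum_singleton]
      · have h7 : tri a a b = false := by
          simp only [tri, Bool.and_eq_false_iff, decide_eq_false_iff_not]
          left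
          intro h
          exact icoNbr_ne _ _ h rfl
        have h8 : tri b a b = false := by
          simp only [tri, Bool.and_eq_false_iff, decide_eq_false_iff_not]
          right; right
          intro h
          exact icoNbr_ne _ _ h rfl
        rw [h7, h8]
        simp
      · simp [hab]
      · simp [ha0.symm, hb0.symm]
    rw [h6] at h5
    have zm : ∀ x y : ZMod 2, x + y = 0 → y = x := by decide
    exact zm _ _ h5
  · rw [Finset.sum_eq_single 0]
    · unfold cone
      rw [if_pos ⟨by rw [Finset.card_insert_of_notMem h0, hT], Finset.mem_insert_self _ _⟩,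
        Finset.erase_insert h0]
    · intro v _ hv
      unfold cone
      rw [if_neg]
      rintro ⟨_, h⟩
      rcases Finset.mem_insert.1 h with h | h
      · exact hv h.symm
      · exact h0 h
    · intro h
      exact absurd (Finset.mem_compl.2 h0) h

theorem common_card : ∀ v d : Fin 12, v ≠ d → d ∉ icoNbr v →
    (Finset.univ.filter (fun b => b ∈ icoNbr v ∧ b ∈ icoNbr d)).card ≤ 2 := by
  decide +kernel

theorem common (v d b b' w : Fin 12) (h1 : v ≠ d) (h2 : d ∉ icoNbr v) (h3 : b ∈ icoNbr v)
    (h4 : b ∈ icoNbr d) (h5 : b' ∈ icoNbr v) (h6 : b' ∈ icoNbr d) (h7 : b ≠ b')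
    (h8 : w ∈ icoNbr v) (h9 : w ∈ icoNbr d) : w = b ∨ w = b' := by
  by_contra hcon
  push Not at hcon
  have h10 := common_card v d h1 h2
  have h11 : ({w, b, b'} : Finset (Fin 12)) ⊆
      Finset.univ.filter (fun b => b ∈ icoNbr v ∧ b ∈ icoNbr d) := by
    intro x hx
    simp only [Finset.mem_insert, Finset.mem_singleton] at hx
    rw [Finset.mem_filter]
    refine ⟨Finset.mem_univ _, ?_⟩
    rcases hx with rfl | rfl | rfl
    · exact ⟨h8, h9⟩
    · exact ⟨h3, h4⟩
    · exact ⟨h5, h6⟩
  have h12 := Finset.card_le_card h11
  rw [Finset.card_eq_three.2 ⟨w, b, b', hcon.1, hcon.2, h7, rfl⟩] at h12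
  omega

theorem noK4 : ∀ v : Fin 12, v ≠ 0 → v ≠ 1 → v ≠ 2 →
      (0 ∉ icoNbr v ∨ 1 ∉ icoNbr v ∨ 2 ∉ icoNbr v) := by
  decide +kernel

theorem contra (c : Finset (Fin 12) → ZMod 2)
    (hnp : ∀ A, c A ≠ 0 → ∀ x ∈ A, ∀ y ∈ A, ∀ w ∈ A, coIco.Adj x y → coIco.Adj y w → x = w)
    (hsum : ∀ T : Finset (Fin 12), T.card = 3 → ∑ v ∈ Tᶜ, c (insert v T) = zz T)
    (v d b b' : Fin 12) (hvd : v ≠ d) (hvd2 : d ∉ icoNbr v) (hb : b ∈ icoNbr d)
    (hb' : b' ∈ icoNbr d) (hbb' : b ≠ b') (hvb : v ≠ b) (hvb' : v ≠ b')
    (hc : c (insert b' {v, d, b}) ≠ 0) : False := by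
  have hdb : d ≠ b := (icoNbr_ne _ _ hb).symm
  have hdb' : d ≠ b' := (icoNbr_ne _ _ hb').symm
  have hG : coIco.Adj v d := ⟨hvd, hvd2⟩
  have hbv : b ∈ icoNbr v := by
    by_contra hcon
    have h1 : coIco.Adj v b := ⟨hvb, hcon⟩
    exact hdb (hnp _ hc d (by simp) v (by simp) b (by simp) hG.symm h1)
  have hbv' : b' ∈ icoNbr v := by
    by_contra hcon
    have h1 : coIco.Adj v b' := ⟨hvb', hcon⟩
    exact hdb' (hnp _ hc d (by simp) v (by simp) b' (by simp) hG.symm h1)
  have hT : ({v, d, b} : Finset (Fin 12)).card = 3 :=
    Finset.card_eq_three.2 ⟨v, d, b, hvd, hvb, hdb, rfl⟩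
  have h1 := hsum _ hT
  have h2 : tri v d b = false := by
    simp only [tri, Bool.and_eq_false_iff, decide_eq_false_iff_not]
    left
    intro h
    exact hvd2 (icoNbr_symm _ _ h)
  rw [zz_triple v d b hvd hvb hdb, h2, Finset.sum_eq_single b'] at h1
  · apply hc
    rw [h1]
    simp
  · intro w hw hwb
    by_contra hcw
    rw [Finset.mem_compl] at hw
    simp only [Finset.mem_insert, Finset.mem_singleton, not_or] at hw
    obtain ⟨hwv, hwd, hwb2⟩ := hw
    have h3 : w ∈ icoNbr v := by
      by_contra hcon
      have h4 : coIco.Adj v w := ⟨fun h => hwv h.symm, hcon⟩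
      exact hwd (hnp _ hcw d (by simp) v (by simp) w (by simp) hG.symm h4).symm
    have h5 : w ∈ icoNbr d := by
      by_contra hcon
      have h4 : coIco.Adj d w := ⟨fun h => hwd h.symm, hcon⟩
      exact hwv (hnp _ hcw v (by simp) d (by simp) w (by simp) hG h4).symm
    rcases common v d b b' w hvd hvd2 hbv hb hbv' hb' hbb' h3 h5 with h | h
    · exact hwb2 h
    · exact hwb h
  · intro h
    exfalso
    apply h
    rw [Finset.mem_compl]
    simp only [Finset.mem_insert, Finset.mem_singleton, not_or]
    exact ⟨hvb'.symm, hdb'.symm, hbb'.symm⟩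

theorem perm1 (v a b c : Fin 12) : (insert c {v, a, b} : Finset (Fin 12)) = insert v {a, b, c} := by
  ext x; simp only [Finset.mem_insert, Finset.mem_singleton]; tauto

theorem perm2 (v a b c : Fin 12) : (insert c {v, b, a} : Finset (Fin 12)) = insert v {a, b, c} := by
  ext x; simp only [Finset.mem_insert, Finset.mem_singleton]; tauto

theorem perm3 (v a b c : Fin 12) : (insert b {v, c, a} : Finset (Fin 12)) = insert v {a, b, c} := by
  ext x; simp only [Finset.mem_insert, Finset.mem_singleton]; tauto

/-- **Main theorem.** The complement of the icosahedron graph is gap-free, and over every field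
its ideal `conn_3` does not have linear quotients. -/
theorem result : GapFree coIco ∧
    ∀ (K : Type u) [Field K], ¬ HasLinearQuotients (connIdeal K coIco 3) := by
  refine ⟨gapFree_coIco, ?_⟩
  intro K _ hLQ
  obtain ⟨r, S, hS, hS2, hlq⟩ := comb coIco 3 hLQ
  obtain ⟨c, hc1, hc2⟩ := chain zz r S (fun i => (hS i).1) (fun i => zz_conn _ (hS i)) hlq
    ⟨cone, by
      intro A hA
      by_contra hcon
      apply hA
      unfold cone
      rw [if_neg (fun h => hcon h.1)], fun T hT => cone_bd T hT⟩
  have hnp : ∀ A, c A ≠ 0 → ∀ x ∈ A, ∀ y ∈ A, ∀ w ∈ A, coIco.Adj x y → coIco.Adj y w →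
      x = w := by
    intro A hA x hx y hy w hw hxy hyw
    by_contra hxw
    obtain ⟨j, hj⟩ := hS2 _ (path3 x y w hxy hyw hxw)
    apply (hc1 A hA).2 j
    rw [hj]
    intro u hu
    simp only [Finset.mem_insert, Finset.mem_singleton] at hu
    rcases hu with rfl | rfl | rfl <;> assumption
  have h1 := hc2 {0, 1, 2} (by decide)
  rw [zz_triple 0 1 2 (by decide) (by decide) (by decide)] at h1
  have h2 : tri 0 1 2 = true := by decide
  rw [h2] at h1
  have h3 : ∑ v ∈ ({0, 1, 2} : Finset (Fin 12))ᶜ, c (insert v {0, 1, 2}) ≠ 0 := by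
    rw [h1]; decide
  obtain ⟨v, hv, hcv⟩ := Finset.exists_ne_zero_of_sum_ne_zero h3
  rw [Finset.mem_compl] at hv
  simp only [Finset.mem_insert, Finset.mem_singleton, not_or] at hv
  obtain ⟨hv0, hv1, hv2⟩ := hv
  rcases noK4 v hv0 hv1 hv2 with h | h | h
  · refine contra c hnp hc2 v 0 1 2 hv0 h (by decide) (by decide) (by decide) hv1 hv2 ?_
    rw [perm1]; exact hcv
  · refine contra c hnp hc2 v 1 0 2 hv1 h (by decide) (by decide) (by decide) hv0 hv2 ?_
    rw [perm2]; exact hcv
  · refine contra c hnp hc2 v 2 0 1 hv2 h (by decide) (by decide) (by decide) hv0 hv1 ?_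
    rw [perm3]; exact hcv

end Pool.Agent.Results.MP_c1f45e_al.CoIcosahedron
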